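import Pool.Agent.Q227.FM.Crit

/-!
# The exact criterion for the existence of a motivic t-structure

The category `C` stands for the category of constructible Voevodsky motives over a field `k` of any
characteristic, `Chow` for the class of the Chow motives, `R l` for the `l`-adic realisations, `T`
for the object `𝟙(1)[2]`. There is a t-structure on `C` which is motivic for all the realisations
if and only if three statements about Chow motives hold: Chow-Künneth decompositions, the vanishing
conjecture, and numerically trivial classes on the pieces in degree `0` are zero.
-/

set_option autoImplicit false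

open CategoryTheory Limits MonoidalCategory Pretriangulated Triangulated
open Pool.Agent.Y116.MT (TensorTriangulated Realisation IsMotivic HardLefschetz)
open Pool.Agent.Q227.FM (IsChow ChowKuenneth PureMorphisms LefschetzType HomologicalIsNumerical
  PureVanishing PureNumerical)

namespace Pool.Agent.Results.MP_6d0ce9_ag.ExactCriterion

universe v u w

/-- Let `C` be a `ℚ`-linear rigid tensor triangulated category in which idempotents split, with
`End(𝟙) = ℚ`, with realisations `R l` and a class `Chow` of Chow motives which satisfies the hard
Lefschetz theorem for the object `T`. There is a t-structure which is motivic for all realisations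
`R l` if and only if all Chow motives have Chow-Künneth decompositions, `Hom(𝟙, A⟦n⟧) = 0` for all
Chow motives `A` in degree `d` and all `n ≤ d` with `(n, d) ≠ (0, 0)`, and all numerically trivial
`𝟙 ⟶ A` are zero for the Chow motives `A` in degree `0`. In this case the standard conjectures
hold as well: morphisms between Chow motives in the same degree are determined by their realisation
and of the form `f = f ≫ g ≫ f`, the conjecture of Lefschetz type holds, and homological and
numerical equivalence agree for all realisations. -/
theorem result {C : Type u} [Category.{v} C] [Preadditive C] [HasZeroObject C] [HasShift C ℤ]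
    [∀ n : ℤ, (shiftFunctor C n).Additive] [Pretriangulated C] [IsTriangulated C]
    [IsIdempotentComplete C] [MonoidalCategory C] [SymmetricCategory C] [TensorTriangulated C]
    [MonoidalPreadditive C] [RightRigidCategory C] [Linear ℚ C] [MonoidalLinear ℚ C]
    (hunit : ∀ e : 𝟙_ C ⟶ 𝟙_ C, ∃ c : ℚ, e = c • 𝟙 (𝟙_ C))
    {Λ : Type*} [Nonempty Λ] {E : Λ → Type w} [∀ l, Field (E l)] [∀ l, CharZero (E l)]
    (R : ∀ l, Realisation C (E l)) (Chow : ObjectProperty C) (hC : IsChow Chow)
    (T : C) (hT : HardLefschetz Chow T R) :
    ((∃ t : TStructure C, IsMotivic t R) ↔
      ChowKuenneth Chow R ∧ PureVanishing Chow R ∧ PureNumerical Chow R) ∧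
    ((∃ t : TStructure C, IsMotivic t R) →
      PureMorphisms Chow R ∧ LefschetzType Chow R ∧ HomologicalIsNumerical Chow R) :=
  ⟨Pool.Agent.Q227.FM.criterion hunit hC hT (Classical.arbitrary Λ),
    fun ⟨_, ht⟩ => (Pool.Agent.Q227.FM.standard hunit hC hT (Classical.arbitrary Λ) ht).2⟩

end Pool.Agent.Results.MP_6d0ce9_ag.ExactCriterion
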