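import Pool.Agent.Q227.FM.Main

/-!
# The motivic t-structure over a finite field

The category `C` stands for the category of constructible Voevodsky motives over a field with `q`
elements, `Chow` for the class of the Chow motives, `R l` for the `l`-adic realisations. A motivic
t-structure exists if and only if rational and numerical equivalence of algebraic cycles agree and
Parshin's conjecture holds, and if and only if the category `C` is semisimple.
-/

set_option autoImplicit false

open CategoryTheory Limits MonoidalCategory Pretriangulated Triangulated
open Pool.Agent.Y116.MT (TensorTriangulated Realisation IsMotivic)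
open Pool.Agent.Q227.FM (IsChow RationalIsNumerical Parshin Frobenius AllSplit)

namespace Pool.Agent.Results.MP_6d0ce9_ag.FiniteFields

universe v u w

/-- Let `C` be a `ℚ`-linear rigid tensor triangulated category in which idempotents split, with
`End(𝟙) = ℚ`, with realisations `R l`, a class `Chow` of Chow motives and a Frobenius endomorphism
of the identity functor with the usual properties. The following are equivalent, for every `l₀`:
(1) there is a t-structure which is motivic for all realisations; (2) there is a t-structure which is
motivic for the single realisation `R l₀`; (3) rational and numerical equivalence agree and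
Parshin's conjecture holds; (4) the category `C` is semisimple: every morphism `f` is of the form
`f ≫ g ≫ f`. -/
theorem result {C : Type u} [Category.{v} C] [Preadditive C] [HasZeroObject C] [HasShift C ℤ]
    [∀ n : ℤ, (shiftFunctor C n).Additive] [Pretriangulated C] [IsTriangulated C]
    [IsIdempotentComplete C] [MonoidalCategory C] [SymmetricCategory C] [TensorTriangulated C]
    [MonoidalPreadditive C] [RightRigidCategory C] [Linear ℚ C] [MonoidalLinear ℚ C]
    (hunit : ∀ e : 𝟙_ C ⟶ 𝟙_ C, ∃ c : ℚ, e = c • 𝟙 (𝟙_ C))
    {Λ : Type*} {E : Λ → Type w} [∀ l, Field (E l)] [∀ l, CharZero (E l)]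
    (R : ∀ l, Realisation C (E l)) (Chow : ObjectProperty C) (hC : IsChow Chow)
    (q : ℕ) (hq : 1 < q) (Fr : Frobenius q Chow R) (l₀ : Λ) :
    List.TFAE [∃ t : TStructure C, IsMotivic t R,
      ∃ t : TStructure C, IsMotivic t (fun _ : Unit => R l₀),
      RationalIsNumerical Chow ∧ Parshin Chow,
      AllSplit C] :=
  Pool.Agent.Q227.FM.main hunit hC hq Fr l₀

end Pool.Agent.Results.MP_6d0ce9_ag.FiniteFields
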