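import Pool.Agent.Q57.MT.TS

/-!
# Independence of the prime for the motivic t-structure

The category `C` stands for the category of constructible Voevodsky motives over a field `k`, the
realisations `R l` for the `l`-adic realisations, for the primes `l` different from the
characteristic of `k`. If the motives of smooth projective varieties satisfy the hard Lefschetz
theorem for one prime `l₀` and have Betti numbers independent of `l`, then a t-structure which is
motivic for all the realisations exists if and only if one exists which is motivic for the
single realisation `R l₀`, and if and only if `R l₀` is conservative and the truncations of the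
realisations `R l₀ (X)` lift to distinguished triangles of motives.
-/

set_option autoImplicit false

open CategoryTheory Limits MonoidalCategory Pretriangulated Triangulated
open Pool.Agent.Y116.MT (TensorTriangulated Realisation IsMotivic)
open Pool.Agent.Q57.MT (Conservative HasTruncations LefschetzGenerated)

namespace Pool.Agent.Results.MP_6d0ce9_ag.IndependenceOfL

universe v u w

/-- Independence of the prime `l` for the motivic t-structure. -/
theorem result {C : Type u} [Category.{v} C] [Preadditive C] [HasZeroObject C] [HasShift C ℤ]
    [∀ n : ℤ, (shiftFunctor C n).Additive] [Pretriangulated C] [IsTriangulated C]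
    [MonoidalCategory C] [SymmetricCategory C] [TensorTriangulated C] [MonoidalPreadditive C]
    [RightRigidCategory C] [Linear ℚ C] [MonoidalLinear ℚ C]
    (hid : ∀ e : 𝟙_ C ⟶ 𝟙_ C, e ≫ e = e → e = 0 ∨ e = 𝟙 _)
    {Λ : Type*} {E : Λ → Type w} [∀ l, Field (E l)] [∀ l, CharZero (E l)]
    (R : ∀ l, Realisation C (E l)) (l₀ : Λ) (Q : ObjectProperty C) (T : C)
    (hQ : LefschetzGenerated Q T R l₀) :
    List.TFAE [∃ t : TStructure C, IsMotivic t R,
      ∃ t : TStructure C, IsMotivic t (fun _ : Unit => R l₀),
      Conservative (R l₀) ∧ HasTruncations (R l₀)] :=
  Pool.Agent.Q57.MT.main hid R l₀ Q T hQ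

end Pool.Agent.Results.MP_6d0ce9_ag.IndependenceOfL
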