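import Pool.Agent.Q20.CD.Sys

/-!
# The motivic t-structure: the characteristic decides

A system of categories of motives over all fields of characteristic `p` is given (see
`Pool.Agent.Q26.MTS.System` and `Pool.Agent.Q20.CD.ChowSystem`; all its properties are theorems for
the constructible Voevodsky motives with rational coefficients): base change, direct images for
finite extensions, continuity, specialisation, Chow motives, hard Lefschetz, Frobenius, and motives
over varieties over algebraically closed fields with Deligne's theorems.

If there is a motivic t-structure over one field of characteristic `p`, then there is one over every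
field of characteristic `p`. So in characteristic `0` the problem for the rational numbers, for
their algebraic closure, and for the complex numbers is the same problem; in characteristic `p > 0`
it is a problem on the finite fields, and for these it is equivalent to the conjunction of two
conjectures: rational and numerical equivalence agree, and Parshin's conjecture.
-/

set_option autoImplicit false

open Pool.Agent.Q26.MTS (Q1)
open Pool.Agent.Q227.FM (AllSplit)
open Pool.Agent.Q20.CD (ChowSystem Detects one_all q1_iff_conj standard_of_q1 finite_iff)

namespace Pool.Agent.Results.MP_6d0ce9_ag.TheCharacteristicDecides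

universe a s u v w

/-- The motivic t-structure: the characteristic decides. -/
theorem result {p : ℕ} {Λ : Type a} [Nonempty Λ] {E : Λ → Type w} [∀ l, Field (E l)]
    [∀ l, CharZero (E l)] (𝓜 : ChowSystem.{a, s, u, v, w} p Λ E) :
    (∀ (k K : Type s) [Field k] [CharP k p] [Field K] [CharP K p],
      -- (1) there are motivic t-structures over all fields of characteristic `p` or over none
      (Q1 (𝓜.M k) ↔ Q1 (𝓜.M K)) ∧
      -- (2) the criterion over one field, and the conclusions over all fields
      (Q1 (𝓜.M K) ↔ (𝓜.chow k).Conjectures) ∧
      (Q1 (𝓜.M k) → (𝓜.chow K).Conjectures ∧ (𝓜.chow K).StandardConjectures) ∧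
      -- (3) base change is exact for, and detects, the t-structures
      ∀ φ : k →+* K, Detects (𝓜.bc φ)) ∧
    -- (4) the finite fields
    (∀ (k K : Type s) [Field k] [CharP k p] [Finite k] [Field K] [CharP K p],
      (Q1 (𝓜.M K) ↔ (𝓜.chow k).FiniteConjectures) ∧
      (Q1 (𝓜.M K) ↔ AllSplit (𝓜.M k).C)) := by
  have key : ∀ (k K : Type s) [Field k] [CharP k p] [Field K] [CharP K p],
      Q1 (𝓜.M k) ↔ Q1 (𝓜.M K) := fun k K _ _ _ _ => ⟨one_all 𝓜, one_all 𝓜⟩
  refine ⟨fun k K _ _ _ _ => ⟨key k K, (key K k).trans (q1_iff_conj (𝓜.chow k)),
    fun h => ?_, fun φ t t' ht ht' n X => (𝓜.bc φ).compat ht ht' n X⟩,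
    fun k K _ _ _ _ _ => ?_⟩
  · have hK : Q1 (𝓜.M K) := one_all 𝓜 h
    exact ⟨(q1_iff_conj (𝓜.chow K)).1 hK, standard_of_q1 (𝓜.chow K) hK⟩
  · obtain ⟨h1, h2⟩ := finite_iff (𝓜.chow k) Finite.one_lt_card (𝓜.frobenius k)
    exact ⟨(key K k).trans h1, (key K k).trans h2⟩

end Pool.Agent.Results.MP_6d0ce9_ag.TheCharacteristicDecides
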